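import Pool.Agent.H.MP_9641f2_gt.E

set_option autoImplicit false

namespace Pool.Agent.Results.MP_9641f2_gt.AllSix

open Pool.Agent.H.MP_9641f2_gt

universe u v

theorem result :
    (∀ (I : Type u) (X : I → Type v) [∀ i, TopologicalSpace (X i)] [T1Space (∀ i, X i)]
      (D : Set (∀ i, X i)), FillsCountable D → T2Space D → ParacompactSpace D →
        ∀ i, T2Space (X i) ∧ ParacompactSpace (X i)) ∧
    (∃ (I : Type) (X : I → Type) (_ : ∀ i, TopologicalSpace (X i)) (D : Set (∀ i, X i)),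
      T1Space (∀ i, X i) ∧ FillsFinite D ∧ T2Space D ∧ ParacompactSpace D ∧
        ∃ i, ¬ ParacompactSpace (X i)) ∧
    (∃ (I : Type) (X : I → Type) (_ : ∀ i, TopologicalSpace (X i)) (D : Set (∀ i, X i)),
      T1Space (∀ i, X i) ∧ FillsCountable D ∧ FillsFinite D ∧ T1Space D ∧ NormalSpace D ∧
        ∃ i, ¬ NormalSpace (X i)) ∧
    (∃ (I : Type) (X : I → Type) (_ : ∀ i, TopologicalSpace (X i)) (D : Set (∀ i, X i)),
      T1Space (∀ i, X i) ∧ FillsCountable D ∧ FillsFinite D ∧ T1Space D ∧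
        CompletelyRegularSpace D ∧ ∃ i, ¬ CompletelyRegularSpace (X i)) :=
  ⟨fun _ _ _ _ D h _ _ i => partA D h i,
    ⟨_, Fam Z ℕ, inferInstance, Z.DA, inferInstance, Z.fillA, inferInstance, Z.paraA, none, Z.notP⟩,
    ⟨_, Fam Z ℝ, inferInstance, Z.DB, inferInstance, Z.fillB,
      fun J a b => Z.fillB J a b.countable, inferInstance, Z.normB, none, Z.notN⟩,
    ⟨_, Fam Y ℝ, inferInstance, Y.DC, inferInstance, Y.fillC,
      fun J a b => Y.fillC J a b.countable, inferInstance, Y.crDC, none, Y.notCR⟩⟩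

end Pool.Agent.Results.MP_9641f2_gt.AllSix
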